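import Pool.Agent.H38R2.CG2.Stubs

/-!
# The expansion of the kernel in Jacobi symbols, summed over v
-/

set_option autoImplicit false

namespace Pool.Agent.Run7.h366.CG

open Finset Filter Pool.Agent.H38R2.CG Pool.Agent.H38R2.CG2
open scoped Classical

noncomputable def Fs (z X : ℕ) (c : Finset ℕ) : Finset ℕ := (Finset.Icc 1 X).filter
      (fun f => Squarefree f ∧ f.Coprime (Qz z) ∧ ∀ p ∈ c, ¬ p ∣ f)

noncomputable def BB (a : ℝ) (X k : ℕ) (c : Finset ℕ) (l t : ℝ) (f : ℕ) : ℝ :=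
  ∑ s ∈ (PA a X).powersetCard k, ∑ t' ∈ (PA a X).powersetCard k,
    ((jacobiSym ((prodS s * prodS t' : ℕ) : ℤ) f : ℤ) : ℝ) *
      fej (l * (Real.log (prodS c ^ 2 * (prodS s * prodS t') : ℕ) - t))

lemma PA_prime {a : ℝ} {X p : ℕ} (hp : p ∈ PA a X) : p.Prime := by
  unfold PA PP at hp
  exact (Finset.mem_filter.1 hp).2

lemma PA_gt {a : ℝ} {X p : ℕ} (hp : p ∈ PA a X) : yA a X < p := by
  unfold PA PP at hp
  exact (Finset.mem_Ioc.1 (Finset.mem_filter.1 hp).1).1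

lemma GG_nonneg {z X : ℕ} {P : Finset ℕ} {δ : ℝ} {C0 : ℕ} {ρ : ℕ → ℝ}
    (h : SWt z X P δ C0 ρ) : 0 ≤ GG X ρ :=
  le_trans (inv_nonneg.2 (pow_nonneg (Real.log_natCast_nonneg X) _)) h.low

lemma jac_abs_le (m : ℤ) (f : ℕ) : |((jacobiSym m f : ℤ) : ℝ)| ≤ 1 := by
  rcases jacobiSym.trichotomy m f with h | h | h <;> simp [h]

lemma BB_abs_le (hFJ : P2_FJ) (a : ℝ) (X k : ℕ) (c : Finset ℕ) (l t : ℝ) (f : ℕ) :
    |BB a X k c l t f| ≤ SF a X k c l t := by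
  unfold BB SF
  refine (Finset.abs_sum_le_sum_abs _ _).trans (Finset.sum_le_sum fun s _ => ?_)
  refine (Finset.abs_sum_le_sum_abs _ _).trans (Finset.sum_le_sum fun t' _ => ?_)
  rw [abs_mul, abs_of_nonneg (hFJ.2.1 _)]
  exact mul_le_of_le_one_left (hFJ.2.1 _) (jac_abs_le _ _)

lemma SF_nonneg (hFJ : P2_FJ) (a : ℝ) (X k : ℕ) (c : Finset ℕ) (l t : ℝ) :
    0 ≤ SF a X k c l t :=
  Finset.sum_nonneg fun _ _ => Finset.sum_nonneg fun _ _ => hFJ.2.1 _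

lemma I_nonneg {F : ℝ → ℝ} {I : ℝ} (hI : ∀ V : ℝ, 0 ≤ V → ∫ x in (0 : ℝ)..V, F x ≤ I) :
    0 ≤ I := by
  have := hI 0 le_rfl
  simpa using this

lemma vX {a : ℝ} {X v V : ℕ} (hX : 1 ≤ X) (hv : v ≤ V)
    (hV : (V : ℝ) ≤ (X : ℝ) ^ (1 - cc a)) : (v : ℝ) * (X : ℝ) ^ (cc a) ≤ X := by
  have hX0 : (0 : ℝ) < X := by exact_mod_cast hX
  have h1 : (v : ℝ) ≤ (X : ℝ) ^ (1 - cc a) := le_trans (by exact_mod_cast hv) hV
  calc (v : ℝ) * (X : ℝ) ^ (cc a) ≤ (X : ℝ) ^ (1 - cc a) * (X : ℝ) ^ (cc a) :=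
        mul_le_mul_of_nonneg_right h1 (Real.rpow_nonneg hX0.le _)
    _ = X := by
        rw [← Real.rpow_add hX0]
        simp

/-- the value at one v -/
lemma UJ_eq (hJX : P2_JX) {a : ℝ} {z X k : ℕ} (hX : 1 ≤ X) {C0 : ℕ} {ρ : ℕ → ℝ}
    (hρ : SWt z X (PA a X) (cc a) C0 ρ) (hQ : ∀ p ∈ PA a X, ¬ p ∣ Qz z)
    {c : Finset ℕ} (hc : c ⊆ PA a X) (F : ℝ → ℝ) (l t : ℝ) {v V : ℕ} (hv1 : 1 ≤ v)
    (hvV : v ≤ V) (hV : (V : ℝ) ≤ (X : ℝ) ^ (1 - cc a)) :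
    UJ a z X k ρ c F l t v =
      ∑ f ∈ Fs z X c, (F v * (tau c v * kap X ρ f v)) * BB a X k c l t f := by
  unfold UJ BB
  have hP : ∀ p ∈ PA a X, p.Prime ∧ ¬ p ∣ Qz z := fun p hp => ⟨PA_prime hp, hQ p hp⟩
  simp only [hJX z X (PA a X) (cc a) C0 ρ c _ v hρ hc hP hv1 (vX hX hvV hV)]
  change F v * ∑ s ∈ (PA a X).powersetCard k, ∑ t' ∈ (PA a X).powersetCard k,
    tau c v * (∑ f ∈ Fs z X c,
      ((jacobiSym ((prodS s * prodS t' : ℕ) : ℤ) f : ℤ) : ℝ) * kap X ρ f v) * _ = _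
  simp only [Finset.mul_sum, Finset.sum_mul]
  rw [Finset.sum_congr rfl fun s _ => Finset.sum_comm, Finset.sum_comm]
  refine Finset.sum_congr rfl fun f _ => Finset.sum_congr rfl fun s _ =>
    Finset.sum_congr rfl fun t' _ => ?_
  ring

lemma Fs_wcop {z X w f : ℕ} {c : Finset ℕ} (hw : ∀ p : ℕ, p.Prime → p ∣ w → p ∣ Qz z)
    (hf : f ∈ Fs z X c) : w.Coprime f := by
  unfold Fs at hf
  have h2 := (Finset.mem_filter.1 hf).2
  refine Nat.coprime_of_dvd fun p hp hpw hpf => ?_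
  exact Nat.not_coprime_of_dvd_of_dvd hp.one_lt hpf (hw p hp hpw) h2.2.1

/-- the sum over v of the absolute values of the coefficients -/
lemma KBs (hKB : P2_KB) {a : ℝ} {z X : ℕ} {C0 : ℕ} (hC0 : 1 ≤ C0) {ρ : ℕ → ℝ}
    (hρ : SWt z X (PA a X) (cc a) C0 ρ) (hQ : ∀ p ∈ PA a X, ¬ p ∣ Qz z)
    {c : Finset ℕ} (hc : c ⊆ PA a X) {w V : ℕ} {F : ℝ → ℝ} {I : ℝ} (hw1 : 1 ≤ w)
    (hw : ∀ p : ℕ, p.Prime → p ∣ w → p ∣ Qz z)
    (hF : AntitoneOn F (Set.Ici 0)) (hF0 : ∀ x, 0 ≤ F x)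
    (hI : ∀ V : ℝ, 0 ≤ V → ∫ x in (0 : ℝ)..V, F x ≤ I) {f : ℕ} (hf : f ∈ Fs z X c) :
    ∑ v ∈ (Finset.Icc 1 V).filter (fun v => w ∣ v), F v * (tau c v * |kap X ρ f v|) ≤
      3 ^ c.card * (2 * C0 : ℝ) ^ f.primeFactors.card * GG X ρ / f * (I / w) := by
  have hf' := hf
  unfold Fs at hf'
  obtain ⟨h1, h2, h3, h4⟩ := Finset.mem_filter.1 hf'
  refine hKB z X V f w (PA a X) (cc a) C0 ρ c F I hρ hC0 hw1 (Finset.mem_Icc.1 h1).1 h2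
    (Fs_wcop hw hf) (fun p hp => ⟨PA_prime (hc hp), h4 p hp, fun hpw => ?_⟩) hF hF0 hI
  exact hQ p (hc hp) (hw p (PA_prime (hc hp)) hpw)

lemma tau_nonneg (c : Finset ℕ) (v : ℕ) : 0 ≤ tau c v := by
  unfold tau
  exact Finset.prod_nonneg fun _ _ => by positivity

/-- the upper bound with any majorant for the sums BB -/
lemma UJ_le (hJX : P2_JX) (hKB : P2_KB) {a : ℝ} {z X k : ℕ} (hX : 1 ≤ X) {C0 : ℕ}
    (hC0 : 1 ≤ C0) {ρ : ℕ → ℝ}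
    (hρ : SWt z X (PA a X) (cc a) C0 ρ) (hQ : ∀ p ∈ PA a X, ¬ p ∣ Qz z)
    {c : Finset ℕ} (hc : c ⊆ PA a X) {w V : ℕ} {F : ℝ → ℝ} {I : ℝ} (hw1 : 1 ≤ w)
    (hw : ∀ p : ℕ, p.Prime → p ∣ w → p ∣ Qz z)
    (hF : AntitoneOn F (Set.Ici 0)) (hF0 : ∀ x, 0 ≤ F x)
    (hI : ∀ V : ℝ, 0 ≤ V → ∫ x in (0 : ℝ)..V, F x ≤ I) (l t : ℝ)
    (hV : (V : ℝ) ≤ (X : ℝ) ^ (1 - cc a)) (β : ℕ → ℝ)
    (hβ : ∀ f ∈ Fs z X c, |BB a X k c l t f| ≤ β f) :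
    ∑ v ∈ (Finset.Icc 1 V).filter (fun v => w ∣ v), UJ a z X k ρ c F l t v ≤
      3 ^ c.card * GG X ρ * (I / w) *
        ∑ f ∈ Fs z X c, (2 * C0 : ℝ) ^ f.primeFactors.card / f * β f := by
  have h1 : ∑ v ∈ (Finset.Icc 1 V).filter (fun v => w ∣ v), UJ a z X k ρ c F l t v =
      ∑ f ∈ Fs z X c, ∑ v ∈ (Finset.Icc 1 V).filter (fun v => w ∣ v),
        (F v * (tau c v * kap X ρ f v)) * BB a X k c l t f := by
    rw [Finset.sum_comm]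
    refine Finset.sum_congr rfl fun v hv => ?_
    have hv' := Finset.mem_Icc.1 (Finset.mem_filter.1 hv).1
    exact UJ_eq hJX hX hρ hQ hc F l t hv'.1 hv'.2 hV
  rw [h1, Finset.mul_sum]
  refine Finset.sum_le_sum fun f hf => ?_
  have hβ0 : 0 ≤ β f := (abs_nonneg _).trans (hβ f hf)
  calc ∑ v ∈ (Finset.Icc 1 V).filter (fun v => w ∣ v),
        (F v * (tau c v * kap X ρ f v)) * BB a X k c l t f
      ≤ ∑ v ∈ (Finset.Icc 1 V).filter (fun v => w ∣ v),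
        (F v * (tau c v * |kap X ρ f v|)) * β f := by
        refine Finset.sum_le_sum fun v _ => ?_
        calc (F v * (tau c v * kap X ρ f v)) * BB a X k c l t f
            ≤ |(F v * (tau c v * kap X ρ f v)) * BB a X k c l t f| := le_abs_self _
          _ = (F v * (tau c v * |kap X ρ f v|)) * |BB a X k c l t f| := by
              rw [abs_mul, abs_mul, abs_mul, abs_of_nonneg (hF0 _),
                abs_of_nonneg (tau_nonneg c v)]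
          _ ≤ _ := mul_le_mul_of_nonneg_left (hβ f hf)
              (mul_nonneg (hF0 _) (mul_nonneg (tau_nonneg c v) (abs_nonneg _)))
    _ = (∑ v ∈ (Finset.Icc 1 V).filter (fun v => w ∣ v),
        F v * (tau c v * |kap X ρ f v|)) * β f := by rw [Finset.sum_mul]
    _ ≤ (3 ^ c.card * (2 * C0 : ℝ) ^ f.primeFactors.card * GG X ρ / f * (I / w)) * β f :=
        mul_le_mul_of_nonneg_right (KBs hKB hC0 hρ hQ hc hw1 hw hF hF0 hI hf) hβ0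
    _ = _ := by ring

lemma HSle (hHS : P2_HS) (z X C0 : ℕ) (hX : 1 ≤ X) (c : Finset ℕ) :
    ∑ f ∈ Fs z X c, (2 * C0 : ℝ) ^ f.primeFactors.card / f ≤ (1 + Real.log X) ^ (2 * C0) := by
  refine le_trans ?_ (hHS (2 * C0) X hX)
  push_cast
  refine Finset.sum_le_sum_of_subset_of_nonneg ?_ fun f _ _ => by positivity
  intro f hf
  unfold Fs at hf
  have := Finset.mem_filter.1 hf
  exact Finset.mem_filter.2 ⟨this.1, this.2.1⟩

end Pool.Agent.Run7.h366.CG
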