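import Pool.Agent.Run7.h366.CG.Core

/-!
# P2_TC
-/

set_option autoImplicit false

namespace Pool.Agent.Run7.h366.CG

open Finset Filter Pool.Agent.H38R2.CG Pool.Agent.H38R2.CG2
open scoped Classical

lemma yA_large (a : ℝ) (ha : 2 < a) (N : ℕ) : ∃ X0 : ℕ, ∀ X ≥ X0, N ≤ yA a X := by
  have h1 : Tendsto (fun X : ℕ => (Real.log X) ^ a / 4) atTop atTop := by
    refine Tendsto.atTop_div_const (by norm_num) ?_
    exact (tendsto_rpow_atTop (by linarith)).comp
      (Real.tendsto_log_atTop.comp tendsto_natCast_atTop_atTop)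
  obtain ⟨X0, h⟩ := (Filter.eventually_atTop.1 (h1.eventually_ge_atTop (N : ℝ)))
  exact ⟨X0, fun X hX => Nat.le_floor (h X hX)⟩

lemma PA_ndvd (a : ℝ) (ha : 2 < a) (z : ℕ) : ∃ X0 : ℕ, ∀ X ≥ X0, ∀ p ∈ PA a X, ¬ p ∣ Qz z := by
  obtain ⟨X0, h⟩ := yA_large a ha (Qz z)
  refine ⟨X0, fun X hX p hp hd => ?_⟩
  have h1 := h X hX
  have h2 := PA_gt hp
  have h3 : 0 < Qz z := by
    unfold Qz
    refine Nat.mul_pos (by norm_num) (Finset.prod_pos fun l hl => ?_)
    exact pow_pos (Finset.mem_filter.1 hl).2.pos 2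
  have := Nat.le_of_dvd h3 hd
  omega

lemma prodS_pos {a : ℝ} {X : ℕ} {s : Finset ℕ} (hs : s ⊆ PA a X) : 0 < prodS s :=
  Finset.prod_pos fun p hp => (PA_prime (hs hp)).pos

lemma BB_abs_FS (hFS : P2_FS) {a : ℝ} {X k : ℕ} {c : Finset ℕ} (hc : c ⊆ PA a X) {l : ℝ}
    (hl : 0 < l) (t : ℝ) (f : ℕ) {b : ℝ} (hb : 0 ≤ b)
    (h : ∀ ξ : ℝ, |ξ| ≤ l →
      ‖∑ s ∈ (PA a X).powersetCard k, (1 : DirichletCharacter ℂ 1) (prodS s : ZMod 1) *
      ((jacobiSym (prodS s : ℤ) f : ℤ) : ℂ) *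
        Complex.exp (ξ * Real.log (prodS s) * Complex.I)‖ ≤ b) :
    |BB a X k c l t f| ≤ b ^ 2 := by
  have h1 : ∀ x : ZMod 1, (1 : DirichletCharacter ℂ 1) x = 1 := fun x =>
    MulChar.one_apply (isUnit_of_subsingleton x)
  simp only [h1, one_mul] at h
  have h2 := hFS (Finset ℕ) ((PA a X).powersetCard k)
    (fun s => ((jacobiSym (prodS s : ℤ) f : ℤ) : ℂ)) (fun s => Real.log (prodS s)) l
    (t - 2 * Real.log (prodS c)) b hl hb h
  have h3 : ((BB a X k c l t f : ℝ) : ℂ) = ∑ i ∈ (PA a X).powersetCard k,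
      ∑ j ∈ (PA a X).powersetCard k,
      ((jacobiSym (prodS i : ℤ) f : ℤ) : ℂ) * ((jacobiSym (prodS j : ℤ) f : ℤ) : ℂ) *
        ((fej (l * (Real.log (prodS i) + Real.log (prodS j) -
          (t - 2 * Real.log (prodS c)))) : ℝ) : ℂ) := by
    unfold BB
    push_cast
    refine Finset.sum_congr rfl fun s hs => Finset.sum_congr rfl fun t' ht' => ?_
    have e1 := prodS_pos hc
    have e2 := prodS_pos (Finset.mem_powersetCard.1 hs).1
    have e3 := prodS_pos (Finset.mem_powersetCard.1 ht').1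
    have e4 : Real.log ((prodS c : ℝ) ^ 2 * ((prodS s : ℝ) * (prodS t' : ℝ))) - t =
        Real.log (prodS s) + Real.log (prodS t') - (t - 2 * Real.log (prodS c)) := by
      rw [Real.log_mul (by positivity) (by positivity), Real.log_mul (by positivity)
        (by positivity), Real.log_pow]
      push_cast
      ring
    rw [e4, jacobiSym.mul_left]
    push_cast
    ring
  rw [← h3, Complex.norm_real] at h2
  exact h2

theorem T2_TC (hJX : P2_JX) (hKB : P2_KB) (hHS : P2_HS) (hCC7 : P2_CC7) (hNB : P2_NBAD)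
    (hFS : P2_FS) (hFJ : P2_FJ) : P2_TC := by
  intro a ha z C0 i0 hC0 l ε hl hε
  obtain ⟨X1, h1⟩ := PA_ndvd a ha z
  obtain ⟨X2, h2⟩ := hCC7 a ha 1 le_rfl (2 * C0) ε hε
  obtain ⟨X3, h3⟩ := hNB a ha 1 le_rfl (2 * C0) i0 l ε hl hε
  refine ⟨max (max X1 X2) (max X3 1), fun X hX ρ hρ c w V F I t hc hci hw1 hw hF hF0 hI hV => ?_⟩
  have hX1 : X1 ≤ X := le_trans (le_trans (le_max_left _ _) (le_max_left _ _)) hX
  have hX2 : X2 ≤ X := le_trans (le_trans (le_max_right _ _) (le_max_left _ _)) hX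
  have hX3 : X3 ≤ X := le_trans (le_trans (le_max_left _ _) (le_max_right _ _)) hX
  have hX4 : 1 ≤ X := le_trans (le_trans (le_max_right _ _) (le_max_right _ _)) hX
  have hQ := h1 X hX1
  obtain ⟨b, hb0, hb1, hb2⟩ := h3 X hX3 (kA a X - c.card) (by omega) (Nat.sub_le _ _)
  set k := kA a X - c.card with hk
  have hSF := SF_nonneg hFJ a X k c l t
  have hGG := GG_nonneg hρ
  have hI0 := I_nonneg hI
  have hβ : ∀ f ∈ Fs z X c, |BB a X k c l t f| ≤
      (if f = 1 then SF a X k c l t else 0) +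
        (if BadF 1 (yA a X) f then SF a X k c l t else 0) + b ^ 2 := by
    intro f hf
    have h0 := BB_abs_le hFJ a X k c l t f
    have hb22 : 0 ≤ b ^ 2 := sq_nonneg b
    by_cases hf1 : f = 1
    · rw [if_pos hf1]
      split_ifs <;> linarith
    by_cases hf2 : BadF 1 (yA a X) f
    · rw [if_neg hf1, if_pos hf2]
      linarith
    rw [if_neg hf1, if_neg hf2]
    have hf' := hf
    unfold Fs at hf'
    obtain ⟨g1, g2, g3, g4⟩ := Finset.mem_filter.1 hf'
    have g5 : f.Coprime (2 * 1) :=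
      Nat.Coprime.coprime_dvd_right (by unfold Qz; exact Dvd.dvd.mul_right (by norm_num) _) g3
    have := BB_abs_FS hFS hc hl t f hb0
      (fun ξ hξ => hb2 1 f g2 g5 (fun h => hf1 h.2) hf2 ξ hξ)
    linarith
  refine (UJ_le hJX hKB hX4 hC0 hρ hQ hc hw1 hw hF hF0 hI l t hV _ hβ).trans ?_
  refine mul_le_mul_of_nonneg_left ?_ (by positivity)
  simp only [mul_add, Finset.sum_add_distrib]
  have e1 : ∑ f ∈ Fs z X c, (2 * C0 : ℝ) ^ f.primeFactors.card / f *
      (if f = 1 then SF a X k c l t else 0) ≤ SF a X k c l t := by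
    simp only [mul_ite, mul_zero]
    rw [Finset.sum_ite_eq']
    split_ifs
    · simp
    · exact hSF
  have e2 : ∑ f ∈ Fs z X c, (2 * C0 : ℝ) ^ f.primeFactors.card / f *
      (if BadF 1 (yA a X) f then SF a X k c l t else 0) ≤ ε * SF a X k c l t := by
    simp only [mul_ite, mul_zero]
    rw [← Finset.sum_filter, ← Finset.sum_mul]
    refine mul_le_mul_of_nonneg_right ?_ hSF
    refine le_trans ?_ (h2 X hX2)
    push_cast
    refine Finset.sum_le_sum_of_subset_of_nonneg ?_ fun f _ _ => by positivity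
    intro f hf
    obtain ⟨hf1, hf2⟩ := Finset.mem_filter.1 hf
    unfold Fs at hf1
    obtain ⟨g1, g2, g3, g4⟩ := Finset.mem_filter.1 hf1
    exact Finset.mem_filter.2 ⟨g1, g2,
      Nat.Coprime.coprime_dvd_right (by unfold Qz; exact Dvd.dvd.mul_right (by norm_num) _) g3,
      hf2⟩
  have e3 : ∑ f ∈ Fs z X c, (2 * C0 : ℝ) ^ f.primeFactors.card / f * b ^ 2 ≤
      ε / Real.log X * (CA a X k) ^ 2 := by
    rw [← Finset.sum_mul]
    refine (mul_le_mul_of_nonneg_right (HSle hHS z X C0 hX4 c) (sq_nonneg b)).trans ?_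
    rw [mul_comm]
    exact hb1
  linarith

end Pool.Agent.Run7.h366.CG
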