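import Pool.Agent.Run7.h366.CG.Core

/-!
# P2_TC0
-/

set_option autoImplicit false

namespace Pool.Agent.Run7.h366.CG

open Finset Filter Pool.Agent.H38R2.CG Pool.Agent.H38R2.CG2
open scoped Classical

theorem T2_TC0 (hJX : P2_JX) (hKB : P2_KB) (hHS : P2_HS) (hFJ : P2_FJ) : P2_TC0 := by
  intro a _ z X hX C0 hC0 ρ hρ hQ c k w V F I l t hc hw1 hw hF hF0 hI _ hV
  have hX1 : 1 ≤ X := by omega
  refine (UJ_le hJX hKB hX1 hC0 hρ hQ hc hw1 hw hF hF0 hI l t hV
    (fun _ => SF a X k c l t) (fun f _ => BB_abs_le hFJ a X k c l t f)).trans ?_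
  rw [← Finset.sum_mul, ← mul_assoc]
  refine mul_le_mul_of_nonneg_right ?_ (SF_nonneg hFJ a X k c l t)
  refine mul_le_mul_of_nonneg_left (HSle hHS z X C0 hX1 c) ?_
  have := GG_nonneg hρ
  have := I_nonneg hI
  positivity

end Pool.Agent.Run7.h366.CG
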