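import Pool.Agent.Run7.h366.CG.TC

/-!
# P2_TE
-/

set_option autoImplicit false

namespace Pool.Agent.Run7.h366.CG

open Finset Filter Pool.Agent.H38R2.CG Pool.Agent.H38R2.CG2
open scoped Classical

/-- the double sum with two characters -/
noncomputable def WS (a : ℝ) (X k M : ℕ) (ψ : DirichletCharacter ℂ M) (f : ℕ) (l t : ℝ) : ℂ :=
  ∑ s ∈ (PA a X).powersetCard k, ∑ t' ∈ (PA a X).powersetCard k,
        ψ (prodS s : ZMod M) * ((jacobiSym (prodS s : ℤ) f : ℤ) : ℂ) *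
        (ψ (prodS t' : ZMod M) * ((jacobiSym (prodS t' : ℤ) f : ℤ) : ℂ)) *
        ((fej (l * (Real.log (prodS s) + Real.log (prodS t') - t)) : ℝ) : ℂ)

lemma SF_empty (a : ℝ) (X k : ℕ) (l t : ℝ) : SF a X k ∅ l t =
    ∑ s ∈ (PA a X).powersetCard k, ∑ t' ∈ (PA a X).powersetCard k,
      fej (l * (Real.log (prodS s) + Real.log (prodS t') - t)) := by
  unfold SF
  refine Finset.sum_congr rfl fun s hs => Finset.sum_congr rfl fun t' ht' => ?_
  have e2 := prodS_pos (Finset.mem_powersetCard.1 hs).1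
  have e3 := prodS_pos (Finset.mem_powersetCard.1 ht').1
  have e1 : prodS ∅ = 1 := by simp [prodS]
  rw [e1]
  push_cast
  rw [one_mul, Real.log_mul (by positivity) (by positivity)]

lemma jac_norm_le (m : ℤ) (f : ℕ) : ‖((jacobiSym m f : ℤ) : ℂ)‖ ≤ 1 := by
  rcases jacobiSym.trichotomy m f with h | h | h <;> simp [h]

lemma WS_le_SF (hFJ : P2_FJ) (a : ℝ) (X k M : ℕ) (ψ : DirichletCharacter ℂ M) (f : ℕ)
    (l t : ℝ) : ‖WS a X k M ψ f l t‖ ≤ SF a X k ∅ l t := by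
  rw [SF_empty]
  unfold WS
  refine (norm_sum_le _ _).trans (Finset.sum_le_sum fun s _ => ?_)
  refine (norm_sum_le _ _).trans (Finset.sum_le_sum fun t' _ => ?_)
  rw [norm_mul, norm_mul, norm_mul, norm_mul, Complex.norm_real, Real.norm_eq_abs,
    abs_of_nonneg (hFJ.2.1 _)]
  refine mul_le_of_le_one_left (hFJ.2.1 _) ?_
  have h1 := ψ.norm_le_one (prodS s : ZMod M)
  have h2 := ψ.norm_le_one (prodS t' : ZMod M)
  have h3 := jac_norm_le (prodS s : ℤ) f
  have h4 := jac_norm_le (prodS t' : ℤ) f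
  have h5 : ‖ψ (prodS s : ZMod M)‖ * ‖((jacobiSym (prodS s : ℤ) f : ℤ) : ℂ)‖ ≤ 1 :=
    mul_le_one₀ h1 (norm_nonneg _) h3
  have h6 : ‖ψ (prodS t' : ZMod M)‖ * ‖((jacobiSym (prodS t' : ℤ) f : ℤ) : ℂ)‖ ≤ 1 :=
    mul_le_one₀ h2 (norm_nonneg _) h4
  exact mul_le_one₀ h5 (by positivity) h6

lemma WS_le_FS (hFS : P2_FS) {a : ℝ} {X k M : ℕ} (ψ : DirichletCharacter ℂ M) (f : ℕ)
    {l : ℝ} (hl : 0 < l) (t : ℝ) {b : ℝ} (hb : 0 ≤ b)
    (h : ∀ ξ : ℝ, |ξ| ≤ l →
      ‖∑ s ∈ (PA a X).powersetCard k, ψ (prodS s : ZMod M) *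
      ((jacobiSym (prodS s : ℤ) f : ℤ) : ℂ) *
        Complex.exp (ξ * Real.log (prodS s) * Complex.I)‖ ≤ b) :
    ‖WS a X k M ψ f l t‖ ≤ b ^ 2 :=
  hFS (Finset ℕ) ((PA a X).powersetCard k)
    (fun s => ψ (prodS s : ZMod M) * ((jacobiSym (prodS s : ℤ) f : ℤ) : ℂ))
    (fun s => Real.log (prodS s)) l t b hl hb h

/-- the sum with rhoQ -/
noncomputable def EE (a : ℝ) (z r X k : ℕ) (l t : ℝ) (f v : ℕ) : ℝ :=
  ∑ s ∈ (PA a X).powersetCard k, ∑ t' ∈ (PA a X).powersetCard k,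
      (rhoQ z r (prodS s * prodS t') v : ℝ) *
      ((jacobiSym ((prodS s * prodS t' : ℕ) : ℤ) f : ℤ) : ℝ) *
      fej (l * (Real.log (prodS s * prodS t' : ℕ) - t))

lemma EE_bd (hTD : P2_TD) {z r v f X k w : ℕ} {a l t : ℝ} (hz : 2 ≤ z) (hr : FundRes z r)
    (hv : 1 ≤ v) (hQ : ∀ p ∈ PA a X, ¬ p ∣ Qz z) (hw : qpart z v = w) (β : ℝ)
    (hβ : ∀ ψ : DirichletCharacter ℂ (Qz z * w ^ 2), ¬ (ψ = 1 ∧ f = 1) →
      ‖WS a X k (Qz z * w ^ 2) ψ f l t‖ ≤ β) (hβ0 : 0 ≤ β) :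
    |EE a z r X k l t f v - (if f = 1 then rbar z r v * SF a X k ∅ l t else 0)| ≤
      (Qz z * 8 * 2 ^ z : ℝ) *
        (Fintype.card (DirichletCharacter ℂ (Qz z * w ^ 2)) * β) := by
  have h := hTD z r v f X k a l t hz hr hv hQ
  rw [hw] at h
  refine h.trans ?_
  refine mul_le_mul_of_nonneg_left ?_ (by positivity)
  have h2 : ∀ ψ : DirichletCharacter ℂ (Qz z * w ^ 2),
      (if ψ = 1 ∧ f = 1 then 0 else ‖WS a X k (Qz z * w ^ 2) ψ f l t‖) ≤ β := by
    intro ψ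
    split_ifs with h3
    · exact hβ0
    · exact hβ ψ h3
  refine (Finset.sum_le_sum fun ψ _ => h2 ψ).trans ?_
  simp

lemma kap_one (X : ℕ) (ρ : ℕ → ℝ) (v : ℕ) : kap X ρ 1 v = GG X ρ := by
  unfold kap GG
  simp

lemma tau_empty (v : ℕ) : tau ∅ v = 1 := by simp [tau]

/-- the value at one v -/
lemma TEv_eq (hJX : P2_JX) {a : ℝ} {z r X k : ℕ} (hX : 1 ≤ X) {C0 : ℕ} {ρ : ℕ → ℝ}
    (hρ : SWt z X (PA a X) (cc a) C0 ρ) (hQ : ∀ p ∈ PA a X, ¬ p ∣ Qz z)
    (l t : ℝ) {v V : ℕ} (hv1 : 1 ≤ v)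
    (hvV : v ≤ V) (hV : (V : ℝ) ≤ (X : ℝ) ^ (1 - cc a)) :
    ∑ s ∈ (PA a X).powersetCard k, ∑ t' ∈ (PA a X).powersetCard k,
      (rhoQ z r (prodS s * prodS t') v : ℝ) *
      JJ z X ρ ∅ (prodS s * prodS t') v * fej (l * (Real.log (prodS s * prodS t' : ℕ) - t)) =
      ∑ f ∈ Fs z X ∅, kap X ρ f v * EE a z r X k l t f v := by
  unfold EE
  have hP : ∀ p ∈ PA a X, p.Prime ∧ ¬ p ∣ Qz z := fun p hp => ⟨PA_prime hp, hQ p hp⟩
  simp only [hJX z X (PA a X) (cc a) C0 ρ ∅ _ v hρ (Finset.empty_subset _) hP hv1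
    (vX hX hvV hV), tau_empty, one_mul]
  change ∑ s ∈ (PA a X).powersetCard k, ∑ t' ∈ (PA a X).powersetCard k,
    (rhoQ z r (prodS s * prodS t') v : ℝ) * (∑ f ∈ Fs z X ∅,
      ((jacobiSym ((prodS s * prodS t' : ℕ) : ℤ) f : ℤ) : ℝ) * kap X ρ f v) * _ = _
  simp only [Finset.mul_sum, Finset.sum_mul]
  rw [Finset.sum_congr rfl fun s _ => Finset.sum_comm, Finset.sum_comm]
  refine Finset.sum_congr rfl fun f _ => Finset.sum_congr rfl fun s _ =>
    Finset.sum_congr rfl fun t' _ => ?_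
  ring

lemma qpart_prime {z v p : ℕ} (hp : p.Prime) (h : p ∣ qpart z v) : p ∣ Qz z := by
  unfold qpart at h
  obtain ⟨q, hq, hpq⟩ := (hp.prime.dvd_finsetProd_iff _).1 h
  obtain ⟨hq1, hq2⟩ := Finset.mem_filter.1 hq
  have h1 := hp.dvd_of_dvd_pow hpq
  have h2 := (Nat.prime_dvd_prime_iff_eq hp (Nat.prime_of_mem_primeFactors hq1)).1 h1
  rwa [h2]

lemma qpart_dvd {z v : ℕ} (hv : 1 ≤ v) : qpart z v ∣ v := by
  unfold qpart
  conv_rhs => rw [← Nat.prod_factorization_pow_eq_self (n := v) (by omega)]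
  rw [Finsupp.prod, Nat.support_factorization]
  exact Finset.prod_dvd_prod_of_subset _ _ _ (Finset.filter_subset _ _)

theorem T2_TE (hJX : P2_JX) (hKB : P2_KB) (hHS : P2_HS) (hCC7 : P2_CC7) (hNB : P2_NBAD)
    (hFS : P2_FS) (hTD : P2_TD) (hFJ : P2_FJ) : P2_TE := by
  intro a ha z r hz hr C0 w hC0 hw1 l ε hl hε
  set M := Qz z * w ^ 2 with hM
  set K : ℝ := (Qz z * 8 * 2 ^ z : ℝ) * Fintype.card (DirichletCharacter ℂ M) with hK
  have hQ0 : 0 < Qz z := by
    unfold Qz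
    refine Nat.mul_pos (by norm_num) (Finset.prod_pos fun l hl => ?_)
    exact pow_pos (Finset.mem_filter.1 hl).2.pos 2
  have hM1 : 1 ≤ M := by
    have : 0 < w := hw1
    have : 0 < Qz z * w ^ 2 := by positivity
    omega
  have hK0 : 0 < K := by
    have h1 : 0 < Fintype.card (DirichletCharacter ℂ M) := Fintype.card_pos
    have h2 : (0 : ℝ) < Fintype.card (DirichletCharacter ℂ M) := by exact_mod_cast h1
    have h3 : (0 : ℝ) < Qz z := by exact_mod_cast hQ0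
    rw [hK]
    positivity
  have hε1 : 0 < ε / K := by positivity
  obtain ⟨X1, h1⟩ := PA_ndvd a ha z
  obtain ⟨X2, h2⟩ := hCC7 a ha M hM1 (2 * C0) (ε / K) hε1
  obtain ⟨X3, h3⟩ := hNB a ha M hM1 (2 * C0) 0 l (ε / K) hl hε1
  refine ⟨max (max X1 X2) (max X3 1), fun X hX ρ hρ V F I t hF hF0 hI hV => ?_⟩
  have hX1 : X1 ≤ X := le_trans (le_trans (le_max_left _ _) (le_max_left _ _)) hX
  have hX2 : X2 ≤ X := le_trans (le_trans (le_max_right _ _) (le_max_left _ _)) hX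
  have hX3 : X3 ≤ X := le_trans (le_trans (le_max_left _ _) (le_max_right _ _)) hX
  have hX4 : 1 ≤ X := le_trans (le_trans (le_max_right _ _) (le_max_right _ _)) hX
  have hQ := h1 X hX1
  obtain ⟨b, hb0, hb1, hb2⟩ := h3 X hX3 (kA a X) (by omega) le_rfl
  set k := kA a X with hk
  have hSF := SF_nonneg hFJ a X k ∅ l t
  have hGG := GG_nonneg hρ
  have hI0 := I_nonneg hI
  have hN0 : 0 ≤ (NA a X) ^ 2 / Real.log X := div_nonneg (sq_nonneg _) (Real.log_natCast_nonneg X)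
  -- the case of an empty sum
  by_cases hne : ((Finset.Icc 1 V).filter (fun v => qpart z v = w)).Nonempty
  swap
  · rw [Finset.not_nonempty_iff_eq_empty.1 hne]
    simp only [Finset.sum_empty, zero_mul, zero_add]
    positivity
  obtain ⟨v0, hv0⟩ := hne
  have hwp : ∀ p : ℕ, p.Prime → p ∣ w → p ∣ Qz z := by
    intro p hp hpw
    rw [← (Finset.mem_filter.1 hv0).2] at hpw
    exact qpart_prime hp hpw
  have hcop : ∀ f ∈ Fs z X ∅, f.Coprime (2 * M) := by
    intro f hf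
    unfold Fs at hf
    obtain ⟨g1, g2, g3, g4⟩ := Finset.mem_filter.1 hf
    refine Nat.coprime_of_dvd fun p hp hpf hpM => ?_
    have h5 : p ∣ Qz z := by
      rcases (hp.dvd_mul).1 hpM with h | h
      · exact h.trans (by unfold Qz; exact Dvd.dvd.mul_right (by norm_num) _)
      · rw [hM] at h
        rcases (hp.dvd_mul).1 h with h | h
        · exact h
        · exact hwp p hp (hp.dvd_of_dvd_pow h)
    exact Nat.not_coprime_of_dvd_of_dvd hp.one_lt hpf h5 g3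
  set β : ℕ → ℝ := fun f => (if BadF M (yA a X) f then SF a X k ∅ l t else 0) + b ^ 2 with hβd
  have hβ0 : ∀ f, 0 ≤ β f := by
    intro f
    simp only [hβd]
    have : 0 ≤ b ^ 2 := sq_nonneg b
    split_ifs <;> linarith
  have hβ : ∀ f ∈ Fs z X ∅, ∀ ψ : DirichletCharacter ℂ M, ¬ (ψ = 1 ∧ f = 1) →
      ‖WS a X k M ψ f l t‖ ≤ β f := by
    intro f hf ψ hψ
    have hb22 : 0 ≤ b ^ 2 := sq_nonneg b
    simp only [hβd]
    by_cases hf2 : BadF M (yA a X) f
    · rw [if_pos hf2]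
      have := WS_le_SF hFJ a X k M ψ f l t
      linarith
    rw [if_neg hf2]
    have hf' := hf
    unfold Fs at hf'
    obtain ⟨g1, g2, g3, g4⟩ := Finset.mem_filter.1 hf'
    have := WS_le_FS hFS ψ f hl t hb0 (fun ξ hξ => hb2 ψ f g2 (hcop f hf) hψ hf2 ξ hξ)
    linarith
  -- one v
  have hone : ∀ v ∈ (Finset.Icc 1 V).filter (fun v => qpart z v = w),
      F v * ∑ s ∈ SA a X, ∑ t' ∈ SA a X, (rhoQ z r (prodS s * prodS t') v : ℝ) *
      JJ z X ρ ∅ (prodS s * prodS t') v * fej (l * (Real.log (prodS s * prodS t' : ℕ) - t)) ≤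
      F v * rbar z r v * (GG X ρ * SF a X k ∅ l t) +
        ∑ f ∈ Fs z X ∅, (F v * (tau ∅ v * |kap X ρ f v|)) * (K * β f) := by
    intro v hv
    obtain ⟨hv1, hv2⟩ := Finset.mem_filter.1 hv
    obtain ⟨hv3, hv4⟩ := Finset.mem_Icc.1 hv1
    have e1 : ∑ s ∈ SA a X, ∑ t' ∈ SA a X, (rhoQ z r (prodS s * prodS t') v : ℝ) *
      JJ z X ρ ∅ (prodS s * prodS t') v * fej (l * (Real.log (prodS s * prodS t' : ℕ) - t)) =
      ∑ f ∈ Fs z X ∅, kap X ρ f v * EE a z r X k l t f v :=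
      TEv_eq hJX hX4 hρ hQ l t hv3 hv4 hV
    rw [e1]
    have e2 : ∀ f ∈ Fs z X ∅, kap X ρ f v * EE a z r X k l t f v ≤
        kap X ρ f v * (if f = 1 then rbar z r v * SF a X k ∅ l t else 0) +
          |kap X ρ f v| * (K * β f) := by
      intro f hf
      have h := EE_bd hTD hz hr hv3 hQ hv2 (β f) (hβ f hf) (hβ0 f)
      have h' : (Qz z * 8 * 2 ^ z : ℝ) *
        (Fintype.card (DirichletCharacter ℂ (Qz z * w ^ 2)) * β f) = K * β f := by
        rw [hK]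
        ring
      rw [h'] at h
      have h4 : kap X ρ f v * (EE a z r X k l t f v -
          (if f = 1 then rbar z r v * SF a X k ∅ l t else 0)) ≤ |kap X ρ f v| * (K * β f) := by
        refine (le_abs_self _).trans ?_
        rw [abs_mul]
        exact mul_le_mul_of_nonneg_left h (abs_nonneg _)
      linarith
    have e3 : ∑ f ∈ Fs z X ∅, kap X ρ f v *
        (if f = 1 then rbar z r v * SF a X k ∅ l t else 0) =
        GG X ρ * (rbar z r v * SF a X k ∅ l t) := by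
      simp only [mul_ite, mul_zero]
      rw [Finset.sum_ite_eq', if_pos, kap_one]
      unfold Fs
      refine Finset.mem_filter.2 ⟨Finset.mem_Icc.2 ⟨le_rfl, hX4⟩, squarefree_one,
        Nat.coprime_one_left _, by simp⟩
    calc F v * ∑ f ∈ Fs z X ∅, kap X ρ f v * EE a z r X k l t f v
        ≤ F v * ∑ f ∈ Fs z X ∅,
          (kap X ρ f v * (if f = 1 then rbar z r v * SF a X k ∅ l t else 0) +
          |kap X ρ f v| * (K * β f)) :=
          mul_le_mul_of_nonneg_left (Finset.sum_le_sum e2) (hF0 _)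
      _ = F v * rbar z r v * (GG X ρ * SF a X k ∅ l t) +
          ∑ f ∈ Fs z X ∅, (F v * (tau ∅ v * |kap X ρ f v|)) * (K * β f) := by
          rw [Finset.sum_add_distrib, e3, mul_add, Finset.mul_sum]
          simp only [tau_empty, one_mul]
          congr 1
          · ring
          · refine Finset.sum_congr rfl fun f _ => ?_
            ring
  refine (Finset.sum_le_sum hone).trans ?_
  rw [Finset.sum_add_distrib, mul_add]
  refine add_le_add ?_ ?_
  · rw [← Finset.sum_mul]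
    apply le_of_eq
    ring
  rw [Finset.sum_comm]
  have hsub : ∀ f ∈ Fs z X ∅, ∑ v ∈ (Finset.Icc 1 V).filter (fun v => qpart z v = w),
      F v * (tau ∅ v * |kap X ρ f v|) * (K * β f) ≤
      GG X ρ * (I / w) * K * ((2 * C0 : ℝ) ^ f.primeFactors.card / f * β f) := by
    intro f hf
    rw [← Finset.sum_mul]
    have s1 : ∑ v ∈ (Finset.Icc 1 V).filter (fun v => qpart z v = w),
        F v * (tau ∅ v * |kap X ρ f v|) ≤
        ∑ v ∈ (Finset.Icc 1 V).filter (fun v => w ∣ v),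
        F v * (tau ∅ v * |kap X ρ f v|) := by
      refine Finset.sum_le_sum_of_subset_of_nonneg ?_ fun v _ _ => ?_
      · intro v hv
        obtain ⟨hv1, hv2⟩ := Finset.mem_filter.1 hv
        refine Finset.mem_filter.2 ⟨hv1, ?_⟩
        rw [← hv2]
        exact qpart_dvd (Finset.mem_Icc.1 hv1).1
      · exact mul_nonneg (hF0 _) (mul_nonneg (tau_nonneg _ _) (abs_nonneg _))
    have s2 := KBs (V := V) hKB hC0 hρ hQ (Finset.empty_subset _) hw1 hwp hF hF0 hI hf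
    refine (mul_le_mul_of_nonneg_right (s1.trans s2)
      (mul_nonneg hK0.le (hβ0 f))).trans (le_of_eq ?_)
    simp only [Finset.card_empty, pow_zero, one_mul]
    ring
  refine (Finset.sum_le_sum hsub).trans ?_
  rw [← Finset.mul_sum]
  have t1 : ∑ f ∈ Fs z X ∅, (2 * C0 : ℝ) ^ f.primeFactors.card / f * β f ≤
      ε / K * (SF a X k ∅ l t + (NA a X) ^ 2 / Real.log X) := by
    simp only [hβd, mul_add, Finset.sum_add_distrib]
    refine add_le_add ?_ ?_
    · simp only [mul_ite, mul_zero]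
      rw [← Finset.sum_filter, ← Finset.sum_mul]
      refine mul_le_mul_of_nonneg_right ?_ hSF
      refine le_trans ?_ (h2 X hX2)
      push_cast
      refine Finset.sum_le_sum_of_subset_of_nonneg ?_ fun f _ _ => by positivity
      intro f hf
      obtain ⟨hf1, hf2⟩ := Finset.mem_filter.1 hf
      have hf3 := hcop f hf1
      unfold Fs at hf1
      obtain ⟨g1, g2, g3, g4⟩ := Finset.mem_filter.1 hf1
      exact Finset.mem_filter.2 ⟨g1, g2, hf3, hf2⟩
    · rw [← Finset.sum_mul]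
      refine (mul_le_mul_of_nonneg_right (HSle hHS z X C0 hX4 ∅) (sq_nonneg b)).trans ?_
      rw [mul_comm]
      refine hb1.trans (le_of_eq ?_)
      change ε / K / Real.log X * (NA a X) ^ 2 = _
      ring
  have hIw : I / w ≤ I := div_le_self hI0 (by exact_mod_cast hw1)
  calc GG X ρ * (I / w) * K * ∑ f ∈ Fs z X ∅, (2 * C0 : ℝ) ^ f.primeFactors.card / f * β f
      ≤ GG X ρ * (I / w) * K * (ε / K * (SF a X k ∅ l t + (NA a X) ^ 2 / Real.log X)) :=
        mul_le_mul_of_nonneg_left t1 (by positivity)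
    _ = GG X ρ * (I / w) * (ε * (SF a X k ∅ l t + (NA a X) ^ 2 / Real.log X)) := by
        field_simp
    _ ≤ GG X ρ * I * (ε * (SF a X k ∅ l t + (NA a X) ^ 2 / Real.log X)) := by
        refine mul_le_mul_of_nonneg_right (mul_le_mul_of_nonneg_left hIw hGG) ?_
        positivity
    _ = _ := by ring

end Pool.Agent.Run7.h366.CG
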